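import Pool.Agent.Hhelper10.Dom.Final

set_option autoImplicit false

/-! Every tournament of large domination number contains `S_t` (Q1 of MP_f4fe70_co), stated with
the tournaments `S_t` as explicit objects. -/

namespace Pool.Agent.Results.MP_f4fe70_co.LargeDomination

/-- A tournament with vertex set `V`: for two different vertices exactly one of the two arcs is
there, and there are no loops. -/
structure Tour (V : Type) where
  adj : V → V → Prop
  irrefl : ∀ u, ¬ adj u u
  one : ∀ u v, u ≠ v → (adj u v ∧ ¬ adj v u) ∨ (adj v u ∧ ¬ adj u v)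

/-- The arcs of `Delta(H1, H2, H3)`: those of the three parts, and all arcs from part 1 to part 2,
from part 2 to part 3 and from part 3 to part 1. -/
def DeltaAdj {A B C : Type} (r : A → A → Prop) (s : B → B → Prop) (q : C → C → Prop) :
    A ⊕ B ⊕ C → A ⊕ B ⊕ C → Prop
  | Sum.inl a, Sum.inl a' => r a a'
  | Sum.inl _, Sum.inr (Sum.inl _) => True
  | Sum.inl _, Sum.inr (Sum.inr _) => False
  | Sum.inr (Sum.inl _), Sum.inl _ => False
  | Sum.inr (Sum.inl b), Sum.inr (Sum.inl b') => s b b'
  | Sum.inr (Sum.inl _), Sum.inr (Sum.inr _) => True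
  | Sum.inr (Sum.inr _), Sum.inl _ => True
  | Sum.inr (Sum.inr _), Sum.inr (Sum.inl _) => False
  | Sum.inr (Sum.inr c), Sum.inr (Sum.inr c') => q c c'

/-- The tournament `Delta(H1, H2, H3)` on the disjoint union of the three vertex sets. -/
def Delta {A B C : Type} (H₁ : Tour A) (H₂ : Tour B) (H₃ : Tour C) : Tour (A ⊕ B ⊕ C) where
  adj := DeltaAdj H₁.adj H₂.adj H₃.adj
  irrefl := by
    rintro (a | b | c)
    · exact H₁.irrefl a
    · exact H₂.irrefl b
    · exact H₃.irrefl c
  one := by
    rintro (a | b | c) (a' | b' | c') h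
    · exact H₁.one a a' (fun e => h (by rw [e]))
    · exact Or.inl ⟨trivial, fun h => h⟩
    · exact Or.inr ⟨trivial, fun h => h⟩
    · exact Or.inr ⟨trivial, fun h => h⟩
    · exact H₂.one b b' (fun e => h (by rw [e]))
    · exact Or.inl ⟨trivial, fun h => h⟩
    · exact Or.inl ⟨trivial, fun h => h⟩
    · exact Or.inr ⟨trivial, fun h => h⟩
    · exact H₃.one c c' (fun e => h (by rw [e]))

/-- The tournament with one vertex. -/
def Single : Tour Unit where
  adj _ _ := False
  irrefl _ h := h
  one u v h := absurd (Subsingleton.elim u v) h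

/-- The vertex set of `S_(k+1)`. -/
def SVert : ℕ → Type
  | 0 => Unit
  | k + 1 => SVert k ⊕ SVert k ⊕ Unit

/-- `SS k` is the tournament `S_(k+1)`: `S_1` has one vertex, `S_(t+1) = Delta(S_t, S_t, 1)`. -/
def SS : (k : ℕ) → Tour (SVert k)
  | 0 => Single
  | k + 1 => Delta (SS k) (SS k) Single

/-- `G` contains `H`: an injection of the vertices of `H` into those of `G` under which the arcs
correspond to each other. -/
def Contains {V W : Type} (G : Tour V) (H : Tour W) : Prop :=
  ∃ f : W → V, Function.Injective f ∧ ∀ a b, H.adj a b ↔ G.adj (f a) (f b)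

/-- `X` is a dominating set of `G`: every vertex outside `X` is adjacent from a vertex of `X`. -/
def Dominating {V : Type} (G : Tour V) (X : Finset V) : Prop :=
  ∀ v, v ∉ X → ∃ x ∈ X, G.adj x v

/-- The domination number of `G`: the least size of a dominating set. -/
noncomputable def domNumber {V : Type} (G : Tour V) : ℕ :=
  sInf {n : ℕ | ∃ X : Finset V, X.card = n ∧ Dominating G X}

open Pool.Agent.Hhelper10.Dom in
theorem embed {V : Type} [DecidableEq V] (G : Tour V) (k : ℕ) :
    ∀ Y : Finset V, Copy G.adj k Y →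
      ∃ f : SVert k → V, Function.Injective f ∧ (∀ a, f a ∈ Y) ∧
        ∀ a b, (SS k).adj a b ↔ G.adj (f a) (f b) := by
  induction k with
  | zero =>
    intro Y hY
    have hY1 : Y.card = 1 := hY
    obtain ⟨v, rfl⟩ := Finset.card_eq_one.1 hY1
    refine ⟨fun _ => v, ?_, fun _ => Finset.mem_singleton_self v, ?_⟩
    · intro a b _
      exact (Subsingleton.elim (α := Unit) a b)
    · intro a b
      constructor
      · intro h
        exact False.elim h
      · intro h
        exact absurd h (G.irrefl v)
  | succ k ih =>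
    rintro Y ⟨A, B, c, hAB, hcA, hcB, rfl, hA, hB, h1, h2, h3⟩
    obtain ⟨f, hf, hfA, hfa⟩ := ih A hA
    obtain ⟨g, hg, hgB, hga⟩ := ih B hB
    have asym : ∀ u v, G.adj u v → ¬ G.adj v u := by
      intro u v h h'
      have hne : u ≠ v := by
        rintro rfl
        exact G.irrefl _ h
      rcases G.one u v hne with h4 | h4
      · exact h4.2 h'
      · exact h4.2 h
    have hne1 : ∀ a b, f a ≠ g b := by
      intro a b h
      exact Finset.disjoint_left.1 hAB (hfA a) (h ▸ hgB b)
    have hne2 : ∀ a, f a ≠ c := by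
      intro a h
      exact hcA (h ▸ hfA a)
    have hne3 : ∀ a, g a ≠ c := by
      intro a h
      exact hcB (h ▸ hgB a)
    refine ⟨Sum.elim f (Sum.elim g (fun _ => c)), ?_, ?_, ?_⟩
    · rintro (a | b | d) (a' | b' | d') h
      · have h' : f a = f a' := h
        rw [hf h']
      · exact absurd h (hne1 a b')
      · exact absurd h (hne2 a)
      · exact absurd (Eq.symm h) (hne1 a' b)
      · have h' : g b = g b' := h
        rw [hg h']
      · exact absurd h (hne3 b)
      · exact absurd (Eq.symm h) (hne2 a')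
      · exact absurd (Eq.symm h) (hne3 b')
      · rfl
    · rintro (a | b | d)
      · exact Finset.mem_insert_of_mem (Finset.mem_union_left _ (hfA a))
      · exact Finset.mem_insert_of_mem (Finset.mem_union_right _ (hgB b))
      · exact Finset.mem_insert_self _ _
    · rintro (a | b | d) (a' | b' | d')
      · exact hfa a a'
      · exact ⟨fun _ => h1 _ (hfA a) _ (hgB b'), fun _ => trivial⟩
      · exact ⟨fun h => False.elim h, fun h => asym _ _ (h3 _ (hfA a)) h⟩
      · exact ⟨fun h => False.elim h, fun h => asym _ _ (h1 _ (hfA a') _ (hgB b)) h⟩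
      · exact hga b b'
      · exact ⟨fun _ => h2 _ (hgB b), fun _ => trivial⟩
      · exact ⟨fun _ => h3 _ (hfA a'), fun _ => trivial⟩
      · exact ⟨fun h => False.elim h, fun h => asym _ _ (h2 _ (hgB b')) h⟩
      · exact ⟨fun h => False.elim h, fun h => absurd h (G.irrefl c)⟩

/-- For every `t` there is `K` such that every finite tournament with domination number
at least `K` contains `S_(t+1)`. -/
theorem result : ∀ t : ℕ, ∃ K : ℕ, 1 ≤ K ∧ ∀ (V : Type) [Fintype V] (G : Tour V),
    K ≤ domNumber G → Contains G (SS t) := by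
  intro t
  obtain ⟨K, hK, h⟩ := Pool.Agent.Hhelper10.Dom.main t
  refine ⟨K, hK, fun V _ G hG => ?_⟩
  classical
  obtain ⟨X, hX⟩ := h V G.adj ⟨G.irrefl, fun u v huv => by
    rcases G.one u v huv with h1 | h1
    · exact ⟨fun _ => h1.2, fun _ => h1.1⟩
    · exact ⟨fun h2 => absurd h2 h1.2, fun h2 => absurd h1.1 h2⟩⟩ (by
    intro D hD
    by_contra hcon
    push Not at hcon
    have hmem : D.card ∈ {n : ℕ | ∃ X : Finset V, X.card = n ∧ Dominating G X} :=
      ⟨D, rfl, fun v hv => hcon v hv⟩
    have := Nat.sInf_le hmem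
    have h2 : domNumber G ≤ D.card := this
    omega)
  obtain ⟨f, hf, _, hfa⟩ := embed G t X hX
  exact ⟨f, hf, hfa⟩

end Pool.Agent.Results.MP_f4fe70_co.LargeDomination
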